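import Pool.Agent.Helper41.LD.Defs

/-!
# LD-AL: the arithmetic condition for algebraic numbers

`a^d (q θ^d - p)` is a nonzero algebraic integer of `ℚ(θ)`; its norm is a nonzero integer, and all conjugates are at most `q B^d`.
-/

set_option autoImplicit false

namespace Pool.Agent.Helper85.LD

open Pool.Agent.Helper41.LD (Dioph)

open IntermediateField

/-- a Liouville inequality for elements of a number field given by one real embedding -/
private lemma norm_lower {K : Type} [Field K] [NumberField K] (ι : K →ₐ[ℚ] ℂ) (x : K) (hx : x ≠ 0) (hint : IsIntegral ℤ x)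
    {A : ℝ} (hA : ∀ σ : K →ₐ[ℚ] ℂ, ‖σ x‖ ≤ A) (hA1 : 1 ≤ A) :
    1 / A ^ (Fintype.card (K →ₐ[ℚ] ℂ)) ≤ ‖ι x‖ := by
  classical
  have hprod := Algebra.norm_eq_prod_embeddings ℚ ℂ x
  have hN : Algebra.norm ℚ x ≠ 0 := Algebra.norm_ne_zero_iff.2 hx
  have hNi : IsIntegral ℤ (Algebra.norm ℚ x) := Algebra.isIntegral_norm ℚ hint
  obtain ⟨z, hz⟩ := IsIntegrallyClosed.isIntegral_iff.1 hNi
  have hz0 : z ≠ 0 := by
    rintro rfl
    apply hN
    rw [← hz]
    simp
  have hz1 : (1 : ℝ) ≤ |(z : ℝ)| := by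
    have : 1 ≤ |z| := Int.one_le_abs hz0
    exact_mod_cast this
  have h1 : (1 : ℝ) ≤ ∏ σ : K →ₐ[ℚ] ℂ, ‖σ x‖ := by
    rw [← norm_prod, ← hprod, ← hz]
    have : ‖(algebraMap ℚ ℂ) ((algebraMap ℤ ℚ) z)‖ = |(z : ℝ)| := by
      simp
    rw [this]
    exact hz1
  rw [← Finset.mul_prod_erase Finset.univ (fun σ : K →ₐ[ℚ] ℂ => ‖σ x‖) (Finset.mem_univ ι)] at h1
  have h2 : ∏ σ ∈ Finset.univ.erase ι, ‖σ x‖ ≤ A ^ (Fintype.card (K →ₐ[ℚ] ℂ)) := by
    calc ∏ σ ∈ Finset.univ.erase ι, ‖σ x‖ ≤ ∏ _σ ∈ Finset.univ.erase ι, A :=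
          Finset.prod_le_prod (fun σ _ => norm_nonneg _) (fun σ _ => hA σ)
      _ = A ^ (Finset.univ.erase ι).card := by rw [Finset.prod_const]
      _ ≤ A ^ (Fintype.card (K →ₐ[ℚ] ℂ)) := pow_le_pow_right₀ hA1 (by
          rw [← Finset.card_univ]; exact Finset.card_le_card (Finset.erase_subset _ _))
  have hApos : 0 < A ^ (Fintype.card (K →ₐ[ℚ] ℂ)) := by positivity
  rw [div_le_iff₀ hApos]
  calc (1 : ℝ) ≤ ‖ι x‖ * ∏ σ ∈ Finset.univ.erase ι, ‖σ x‖ := h1
    _ ≤ _ := mul_le_mul_of_nonneg_left h2 (norm_nonneg _)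

theorem dioph_alg {θ : ℝ} (hθ : 1 < θ) (ha : IsAlgebraic ℚ θ) (hirr : ∀ d : ℕ, 1 ≤ d → Irrational (θ ^ d)) : Dioph θ 1 := by
  classical
  have hint : IsIntegral ℚ θ := ha.isIntegral
  have : FiniteDimensional ℚ ℚ⟮θ⟯ := adjoin.finiteDimensional hint
  have : NumberField ℚ⟮θ⟯ := { to_charZero := inferInstance, to_finiteDimensional := inferInstance }
  set K := ℚ⟮θ⟯ with hK
  set γ : K := AdjoinSimple.gen ℚ θ with hγ
  have hγθ : (γ : ℝ) = θ := AdjoinSimple.coe_gen ℚ θ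
  -- the real embedding
  set ι : K →ₐ[ℚ] ℂ := (Complex.ofRealAm.restrictScalars ℚ).comp K.val with hι
  have hιγ : ι γ = (θ : ℂ) := by
    rw [hι]
    simp only [AlgHom.coe_comp, Function.comp_apply]
    show ((γ : ℝ) : ℂ) = (θ : ℂ)
    rw [hγθ]
  -- a denominator
  obtain ⟨a, ha0, haint⟩ : ∃ a : ℤ, a ≠ 0 ∧ IsIntegral ℤ ((a : K) * γ) := by
    have hγalg : IsAlgebraic ℤ γ := by
      have : IsAlgebraic ℚ γ := Algebra.IsAlgebraic.isAlgebraic γ
      exact (IsFractionRing.isAlgebraic_iff ℤ ℚ K).2 this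
    obtain ⟨y, hy0, hy⟩ := hγalg.exists_integral_multiple
    refine ⟨y, hy0, ?_⟩
    have : (y : K) * γ = y • γ := by rw [zsmul_eq_mul]
    rw [this]
    exact hy
  have ha1 : (1 : ℝ) ≤ |(a : ℝ)| := by
    have : 1 ≤ |a| := Int.one_le_abs ha0
    exact_mod_cast this
  -- a bound for the conjugates
  obtain ⟨M, hM1, hMθ, hM⟩ : ∃ M : ℝ, 1 ≤ M ∧ θ ≤ M ∧ ∀ σ : K →ₐ[ℚ] ℂ, ‖σ γ‖ ≤ M := by
    refine ⟨θ + ∑ σ : K →ₐ[ℚ] ℂ, ‖σ γ‖, ?_, ?_, fun σ => ?_⟩
    · have : 0 ≤ ∑ σ : K →ₐ[ℚ] ℂ, ‖σ γ‖ := Finset.sum_nonneg fun _ _ => norm_nonneg _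
      linarith
    · have : 0 ≤ ∑ σ : K →ₐ[ℚ] ℂ, ‖σ γ‖ := Finset.sum_nonneg fun _ _ => norm_nonneg _
      linarith
    · have : ‖σ γ‖ ≤ ∑ σ : K →ₐ[ℚ] ℂ, ‖σ γ‖ :=
        Finset.single_le_sum (f := fun σ : K →ₐ[ℚ] ℂ => ‖σ γ‖) (fun _ _ => norm_nonneg _) (Finset.mem_univ σ)
      linarith
  set N : ℕ := Fintype.card (K →ₐ[ℚ] ℂ) with hN
  set B : ℝ := 3 * |(a : ℝ)| * M with hB
  have hB1 : 1 < B := by
    rw [hB]
    nlinarith
  have hlogB : 0 < Real.log B := Real.log_pos hB1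
  refine ⟨(N + 1) * (1 + Real.log B), by positivity, ?_⟩
  intro d q hd hq p
  have hq1 : (1 : ℝ) ≤ q := by exact_mod_cast hq
  have hlogq : 0 ≤ Real.log q := Real.log_nonneg hq1
  have hd1 : (1 : ℝ) ≤ d := by exact_mod_cast hd
  rw [pow_one]
  rcases lt_or_ge 1 |q * θ ^ d - p| with hbig | hsmall
  · refine le_trans ?_ hbig.le
    rw [Real.exp_le_one_iff]
    have : 0 ≤ (N + 1 : ℝ) * (1 + Real.log B) * (d + Real.log q) := by positivity
    linarith
  · -- the algebraic integer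
    set x : K := (a : K) ^ d * ((q : K) * γ ^ d - (p : K)) with hx
    have hιx : ι x = (((a : ℝ) ^ d * (q * θ ^ d - p) : ℝ) : ℂ) := by
      rw [hx]
      simp only [map_mul, map_pow, map_sub, map_intCast, map_natCast, hιγ]
      push_cast
      ring
    have hne : q * θ ^ d - p ≠ 0 := by
      intro h
      have h1 : θ ^ d = p / q := by
        have : (q : ℝ) ≠ 0 := by positivity
        field_simp
        linarith
      apply hirr d hd
      refine ⟨(p : ℚ) / (q : ℚ), ?_⟩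
      rw [h1]
      push_cast
      rfl
    have hx0 : x ≠ 0 := by
      intro h
      have h1 : ι x = 0 := by rw [h, map_zero]
      rw [hιx] at h1
      have h2 : (a : ℝ) ^ d * (q * θ ^ d - p) = 0 := by exact_mod_cast h1
      rcases mul_eq_zero.1 h2 with h3 | h3
      · exact ha0 (by exact_mod_cast (pow_eq_zero_iff (by omega : d ≠ 0)).1 h3)
      · exact hne h3
    have hxint : IsIntegral ℤ x := by
      have e : x = (q : K) * ((a : K) * γ) ^ d - (a : K) ^ d * (p : K) := by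
        rw [hx, mul_pow]; ring
      rw [e]
      have h1 : IsIntegral ℤ (q : K) := by
        have : (q : K) = algebraMap ℤ K (q : ℤ) := by simp
        rw [this]; exact isIntegral_algebraMap
      have h2 : IsIntegral ℤ (a : K) := by
        have : (a : K) = algebraMap ℤ K a := by simp
        rw [this]; exact isIntegral_algebraMap
      have h3 : IsIntegral ℤ (p : K) := by
        have : (p : K) = algebraMap ℤ K p := by simp
        rw [this]; exact isIntegral_algebraMap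
      exact (h1.mul (haint.pow d)).sub ((h2.pow d).mul h3)
    have hp : |(p : ℝ)| ≤ q * M ^ d + 1 := by
      have h1 : |(p : ℝ)| ≤ |q * θ ^ d| + |q * θ ^ d - p| := by
        have : (p : ℝ) = q * θ ^ d - (q * θ ^ d - p) := by ring
        calc |(p : ℝ)| = |q * θ ^ d - (q * θ ^ d - p)| := by rw [← this]
          _ ≤ _ := abs_sub _ _
      have h2 : |q * θ ^ d| ≤ q * M ^ d := by
        rw [abs_of_nonneg (by positivity)]
        gcongr
      linarith
    have hAle : ∀ σ : K →ₐ[ℚ] ℂ, ‖σ x‖ ≤ q * B ^ d := by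
      intro σ
      have e : σ x = (a : ℂ) ^ d * ((q : ℂ) * σ γ ^ d - (p : ℂ)) := by
        rw [hx]
        simp only [map_mul, map_pow, map_sub, map_intCast, map_natCast]
      rw [e, norm_mul, norm_pow]
      have h1 : ‖(a : ℂ)‖ = |(a : ℝ)| := by
        rw [Complex.norm_intCast]
      have h2 : ‖(q : ℂ) * σ γ ^ d - (p : ℂ)‖ ≤ q * M ^ d + |(p : ℝ)| := by
        refine (norm_sub_le _ _).trans ?_
        rw [norm_mul, norm_pow, Complex.norm_natCast, Complex.norm_intCast]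
        have := hM σ
        gcongr
      rw [h1]
      have hMd : (1 : ℝ) ≤ M ^ d := one_le_pow₀ hM1
      have h3 : q * M ^ d + |(p : ℝ)| ≤ q * (3 * M) ^ d := by
        have h4 : (3 : ℝ) ≤ 3 ^ d := by
          calc (3 : ℝ) = 3 ^ 1 := by norm_num
            _ ≤ 3 ^ d := pow_le_pow_right₀ (by norm_num) hd
        have h5 : (1 : ℝ) ≤ q * M ^ d := by nlinarith
        calc q * M ^ d + |(p : ℝ)| ≤ 3 * (q * M ^ d) := by linarith
          _ ≤ 3 ^ d * (q * M ^ d) := by gcongr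
          _ = q * (3 * M) ^ d := by rw [mul_pow]; ring
      calc |(a : ℝ)| ^ d * ‖(q : ℂ) * σ γ ^ d - (p : ℂ)‖ ≤ |(a : ℝ)| ^ d * (q * (3 * M) ^ d) := by
            gcongr
            exact h2.trans h3
        _ = q * B ^ d := by
            rw [hB, show (3 : ℝ) * |(a : ℝ)| * M = |(a : ℝ)| * (3 * M) by ring, mul_pow]
            ring
    have hBd : (1 : ℝ) ≤ B ^ d := one_le_pow₀ hB1.le
    have hA1 : (1 : ℝ) ≤ q * B ^ d := by nlinarith
    have hlow := norm_lower ι x hx0 hxint hAle hA1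
    rw [hιx, Complex.norm_real, Real.norm_eq_abs, abs_mul, abs_pow] at hlow
    have had : |(a : ℝ)| ^ d ≤ q * B ^ d := by
      have h1 : |(a : ℝ)| ≤ B := by
        rw [hB]
        nlinarith [abs_nonneg (a : ℝ)]
      have h2 : |(a : ℝ)| ^ d ≤ B ^ d := pow_le_pow_left₀ (abs_nonneg _) h1 d
      nlinarith
    have hfin : 1 / (q * B ^ d) ^ (N + 1) ≤ |q * θ ^ d - p| := by
      have hpos : 0 < (q * B ^ d : ℝ) := by linarith
      rw [div_le_iff₀ (by positivity)] at hlow ⊢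
      calc (1 : ℝ) ≤ |(a : ℝ)| ^ d * |q * θ ^ d - p| * (q * B ^ d) ^ N := hlow
        _ ≤ (q * B ^ d) * |q * θ ^ d - p| * (q * B ^ d) ^ N := by gcongr
        _ = |q * θ ^ d - p| * (q * B ^ d) ^ (N + 1) := by rw [pow_succ]; ring
    refine le_trans ?_ hfin
    have hpos : 0 < (q * B ^ d : ℝ) := by linarith
    have e1 : 1 / (q * B ^ d : ℝ) ^ (N + 1) = Real.exp (-((N + 1) * (Real.log q + d * Real.log B))) := by
      rw [Real.exp_neg, one_div]
      congr 1
      rw [← Real.log_pow, ← Real.log_mul (by positivity) (by positivity)]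
      have : ((N : ℝ) + 1) * Real.log (q * B ^ d) = Real.log ((q * B ^ d) ^ (N + 1)) := by
        rw [Real.log_pow]; push_cast; ring
      rw [this, Real.exp_log (by positivity)]
    rw [e1]
    apply Real.exp_le_exp.2
    have h1 : (N + 1 : ℝ) * (Real.log q + d * Real.log B) ≤ (N + 1) * (1 + Real.log B) * (d + Real.log q) := by
      rw [mul_assoc]
      refine mul_le_mul_of_nonneg_left ?_ (by positivity)
      nlinarith [mul_nonneg hlogB.le hlogq]
    linarith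

end Pool.Agent.Helper85.LD
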